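import Pool.Agent.H94.SM2

set_option autoImplicit false

namespace Pool.Agent.Results.MP_8bee83_an.ZeroMeanDim
open Pool.Agent.H94.SM

theorem result {G X : Type*} [Group G] [Countable G] [Infinite G] [MetricSpace X]
    [CompactSpace X] [MulAction G X] [ContinuousConstSMul G X] (hX : cdim X < ⊤) (d : ℕ → ℕ)
    (σ : ∀ i, G → Equiv.Perm (Fin (d i))) (hσ : IsSofic d σ) : mdim X d σ ≤ 0 :=
  main hX d σ hσ

end Pool.Agent.Results.MP_8bee83_an.ZeroMeanDim
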